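import Pool.Agent.H929.KC.StmQ
import Pool.Agent.H378.KC.SP1a
import Pool.Agent.H168.KC.SP2

/-!
# Project KC (helper929), part Q: (SIMP) a generic line through the point of contact
-/

set_option autoImplicit false

namespace Pool.Agent.H284.KC

open MvPolynomial Pool.Agent.H929.KC Pool.Agent.H378.KC

theorem exists_pderiv_not_dvd {F : Type} [Field F] [CharZero F] {n : ℕ}
    (g : MvPolynomial (Fin n) F) (hg : 0 < g.totalDegree) : ∃ i, ¬ g ∣ pderiv i g := by
  classical
  have hg0 : g ≠ 0 := by
    rintro rfl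
    simp at hg
  obtain ⟨m, hm, hmd⟩ : ∃ m ∈ g.support, (m.sum fun _ e => e) = g.totalDegree := by
    obtain ⟨m, hm, h⟩ := Finset.exists_mem_eq_sup g.support (support_nonempty.2 hg0)
      (fun s : Fin n →₀ ℕ => s.sum fun _ e => e)
    exact ⟨m, hm, h.symm⟩
  obtain ⟨i, hi⟩ : ∃ i, m i ≠ 0 := by
    by_contra hcon
    push Not at hcon
    have : m = 0 := by ext i; exact hcon i
    rw [this] at hmd
    simp at hmd
    omega
  refine ⟨i, fun hdvd => ?_⟩
  have h1 : pderiv i g ≠ 0 := by
    intro h0
    have h2 := coeff_pderiv (i := i) g (m - Finsupp.single i 1)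
    have h3 : m - Finsupp.single i 1 + Finsupp.single i 1 = m := by
      refine tsub_add_cancel_of_le ?_
      rw [Finsupp.single_le_iff]
      omega
    rw [h0, coeff_zero, h3] at h2
    have h4 : coeff m g ≠ 0 := mem_support_iff.1 hm
    have h5 : (((m - Finsupp.single i 1 : Fin n →₀ ℕ) i : ℕ) : F) + 1 ≠ 0 := Nat.cast_add_one_ne_zero _
    exact (mul_ne_zero h4 h5) h2.symm
  obtain ⟨u, hu⟩ := hdvd
  have hu0 : u ≠ 0 := by
    rintro rfl
    rw [mul_zero] at hu
    exact h1 hu
  have h2 : g.totalDegree ≤ (pderiv i g).totalDegree := by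
    rw [hu, totalDegree_mul_of_isDomain hg0 hu0]
    exact Nat.le_add_right _ _
  have h3 : (pderiv i g).totalDegree + 1 ≤ g.totalDegree := by
    obtain ⟨m', hm', h⟩ := Finset.exists_mem_eq_sup (pderiv i g).support (support_nonempty.2 h1)
      (fun s : Fin n →₀ ℕ => s.sum fun _ e => e)
    have h4 : (pderiv i g).totalDegree = m'.sum fun _ e => e := h
    have h5 : coeff (m' + Finsupp.single i 1) g ≠ 0 := by
      intro h6
      have h7 := coeff_pderiv (i := i) g m'
      rw [h6, zero_mul] at h7
      exact (mem_support_iff.1 hm') h7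
    have h8 := le_totalDegree (mem_support_iff.2 h5)
    rw [Finsupp.sum_add_index' (fun _ => rfl) (fun _ _ _ => rfl), Finsupp.sum_single_index rfl] at h8
    rw [h4]
    exact h8
  omega

/-- one equation makes an element algebraic -/
theorem alg_of_one {F Ω : Type} [Field F] [Field Ω] [Algebra F Ω] (c : MvPolynomial (Fin 1) F)
    (hc : c ≠ 0) (u : Ω) (h : aeval (fun _ : Fin 1 => u) c = 0) : IsAlgebraic F u := by
  by_contra hcon
  have h1 : AlgebraicIndependent F (fun _ : Fin 1 => u) :=
    algebraicIndependent_unique_type_iff.2 hcon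
  have h2 := (injective_iff_map_eq_zero _).1 h1 c h
  exact hc h2

/-- the ideal of the generic point of a plane curve -/
theorem dvd_of_zero {F Ω : Type} [Field F] [Field Ω] [Algebra F Ω] (g f : MvPolynomial (Fin 2) F)
    (hg : Irreducible g) (t u : Ω) (h1 : aeval ![t, u] g = 0) (h2 : aeval ![t, u] f = 0)
    (htu : ¬ (IsAlgebraic F t ∧ IsAlgebraic F u)) : g ∣ f := by
  by_contra hcon
  have hrel : IsRelPrime g f := hg.isRelPrime_iff_not_dvd.2 hcon
  apply htu
  constructor
  · -- swap the variables
    set e : MvPolynomial (Fin 2) F ≃ₐ[F] MvPolynomial (Fin 2) F :=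
      renameEquiv F (Equiv.swap (0 : Fin 2) 1) with he
    have h3 : IsRelPrime (e g) (e f) := by
      intro d h4 h5
      have h6 : e.symm d ∣ g := by
        have := map_dvd e.symm h4
        rwa [AlgEquiv.symm_apply_apply] at this
      have h7 : e.symm d ∣ f := by
        have := map_dvd e.symm h5
        rwa [AlgEquiv.symm_apply_apply] at this
      have h8 := (hrel h6 h7).map e
      rwa [AlgEquiv.apply_symm_apply] at h8
    obtain ⟨c, U, V, hc, hUV⟩ := elim_mv (e g) (e f)
      (fun h0 => hg.ne_zero ((map_eq_zero_iff _ e.injective).1 h0)) h3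
    have h4 : ∀ D : MvPolynomial (Fin 2) F, aeval ![u, t] (e D) = aeval ![t, u] D := by
      intro D
      rw [he, renameEquiv_apply, aeval_rename]
      congr 2
      funext i
      fin_cases i <;> simp
    have h5 := congrArg (aeval ![u, t]) hUV
    rw [map_add, map_mul, map_mul, h4, h4, h1, h2, mul_zero, mul_zero, add_zero,
      aeval_rename] at h5
    refine alg_of_one c hc t ?_
    rw [← h5]
    congr 2
    funext i
    fin_cases i
    rfl
  · obtain ⟨c, U, V, hc, hUV⟩ := elim_mv g f hg.ne_zero hrel
    have h5 := congrArg (aeval ![t, u]) hUV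
    rw [map_add, map_mul, map_mul, h1, h2, mul_zero, mul_zero, add_zero, aeval_rename] at h5
    refine alg_of_one c hc u ?_
    rw [← h5]
    congr 2
    funext i
    fin_cases i
    rfl

/-- (SIMP) -/
theorem t_SIMP (hF : S_FACTS) (hX0 : S_X0) (hSP1 : S_SP1) (hSP2 : S_SP2) (hGZI : S_GZI) :
    S_SIMP := by
  intro k F Ω _ _ _ _ _ _ _ _ _ _ G d P hyp hirr b hb h hh
  obtain ⟨hE, hFD⟩ := hF k F G d P hyp
  obtain ⟨hx0, hne0, hhom⟩ := hX0 k F G d P hyp
  obtain ⟨hgi, hgd⟩ := hGZI k F G d P hyp hirr
  have hc0 : CharZero F := charZero_of_injective_algebraMap (algebraMap k F).injective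
  set ι : F →+* Ω := algebraMap F Ω with hι
  set a : Ω := ι P.y - b * ι P.x with ha
  -- the degree
  have hdeg : h.natDegree = d := by
    have h1 : IsRelPrime (Gz G P.p P.q P.r) 1 := isRelPrime_one_right
    have h2 : ¬ (X 0 : MvPolynomial (Fin 3) F) ∣ 1 := by
      intro h3
      exact (X_prime (R := F) (i := (0 : Fin 3))).not_isUnit (isUnit_of_dvd_one h3)
    have := (hSP1 F Ω (Gz G P.p P.q P.r) 1 d 0 hhom (isHomogeneous_one _ _) h1 hx0 h2 P.x P.y b
      hb).1
    rw [hh]
    exact this
  have hh0 : h ≠ 0 := by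
    intro h0
    rw [h0, Polynomial.natDegree_zero] at hdeg
    have := hyp.two
    omega
  -- the two-variable form
  set Z : Fin 2 → Polynomial Ω := ![Polynomial.X, Polynomial.C a + Polynomial.C b * Polynomial.X]
    with hZ
  have hres : h = aeval Z (gz G P) := by
    rw [hh]
    unfold res Gz gz
    rw [hι, MvPolynomial.aeval_map_algebraMap]
    have h1 := MvPolynomial.comp_aeval_apply
      (f := (![X 0, X 1, X 2, -(C P.r * X 0 + C P.p * X 1 + C P.q * X 2)] :
        Fin 4 → MvPolynomial (Fin 3) F))
      ((aeval ![1, Polynomial.X, Polynomial.C a + Polynomial.C b * Polynomial.X] :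
        MvPolynomial (Fin 3) F →ₐ[F] Polynomial Ω).restrictScalars k) G
    have h2 := MvPolynomial.comp_aeval_apply
      (f := (![1, X 0, X 1, -(C P.r + C P.p * X 0 + C P.q * X 1)] :
        Fin 4 → MvPolynomial (Fin 2) F))
      ((aeval Z : MvPolynomial (Fin 2) F →ₐ[F] Polynomial Ω).restrictScalars k) G
    rw [AlgHom.restrictScalars_apply] at h1 h2
    refine h1.trans (Eq.trans ?_ h2.symm)
    congr 2
    funext i
    fin_cases i
    · simp
    · simp [hZ]
    · simp [hZ]
    · simp [hZ]
  -- evaluation
  have hev : ∀ (f : MvPolynomial (Fin 2) F) (t : Ω),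
      (aeval Z f).eval t = aeval ![t, ι P.y + b * (t - ι P.x)] f := by
    intro f t
    have h1 := MvPolynomial.comp_aeval_apply (f := Z)
      ((Polynomial.aeval (R := Ω) t).restrictScalars F) f
    rw [AlgHom.restrictScalars_apply, Polynomial.coe_aeval_eq_eval] at h1
    rw [h1]
    congr 2
    funext i
    rw [AlgHom.restrictScalars_apply, Polynomial.coe_aeval_eq_eval]
    fin_cases i
    · simp [hZ]
    · simp [hZ, ha]; ring
  -- derivative
  set δ : Derivation F (Polynomial Ω) (Polynomial Ω) :=
    (Polynomial.derivative' (R := Ω)).restrictScalars F with hδ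
  have hδa : ∀ f : Polynomial Ω, δ f = Polynomial.derivative f := fun f => rfl
  have hder : ∀ t : Ω, (Polynomial.derivative h).eval t =
      aeval ![t, ι P.y + b * (t - ι P.x)] (pderiv 0 (gz G P)) +
        b * aeval ![t, ι P.y + b * (t - ι P.x)] (pderiv 1 (gz G P)) := by
    intro t
    rw [hres, ← hδa, Pool.Agent.H168.KC.SP2.der_aeval δ Z, Fin.sum_univ_two, Polynomial.eval_add,
      Polynomial.eval_mul, Polynomial.eval_mul, hev, hev, hδa, hδa]
    have e0 : (Polynomial.derivative (Z 0)).eval t = 1 := by simp [hZ]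
    have e1 : (Polynomial.derivative (Z 1)).eval t = b := by simp [hZ]
    rw [e0, e1]
    ring
  refine ⟨hdeg, ?_, ?_⟩
  · -- multiplicity two
    set W : Fin 4 → MvPolynomial (Fin 2) F :=
      ![1, X 0, X 1, -(C P.r + C P.p * X 0 + C P.q * X 1)] with hW
    have hgW : gz G P = aeval W G := rfl
    have hWev : ∀ f : MvPolynomial (Fin 4) k,
        aeval ![ι P.x, ι P.y + b * (ι P.x - ι P.x)] (aeval W f) = ι (aeval P.pt f) := by
      intro f
      rw [sub_self, mul_zero, add_zero]
      have h1 := MvPolynomial.comp_aeval_apply (f := W)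
        ((aeval ![ι P.x, ι P.y] : MvPolynomial (Fin 2) F →ₐ[F] Ω).restrictScalars k) f
      have h2 := MvPolynomial.comp_aeval_apply (f := P.pt) (IsScalarTower.toAlgHom k F Ω) f
      rw [AlgHom.restrictScalars_apply] at h1
      rw [IsScalarTower.coe_toAlgHom'] at h2
      rw [h1, hι, h2]
      congr 2
      funext i
      rw [AlgHom.restrictScalars_apply]
      have hw : P.w = -(P.r + P.p * P.x + P.q * P.y) := by linear_combination hE
      fin_cases i
      · simp [hW, Six.pt]
      · simp [hW, Six.pt]
      · simp [hW, Six.pt]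
      · simp [hW, Six.pt, hw]
    have hpd : ∀ j : Fin 2, pderiv j (gz G P) =
        ∑ i, aeval W (pderiv i G) * pderiv j (W i) := by
      intro j
      rw [hgW]
      exact Pool.Agent.H168.KC.SP2.der_aeval ((pderiv j).restrictScalars k) W G
    have g1 : h.IsRoot (ι P.x) := by
      show h.eval (ι P.x) = 0
      rw [hres, hev, hgW, hWev, hyp.gp.zero, map_zero]
    have g2 : (Polynomial.derivative h).IsRoot (ι P.x) := by
      show (Polynomial.derivative h).eval (ι P.x) = 0
      rw [hder]
      have k0 : aeval ![ι P.x, ι P.y + b * (ι P.x - ι P.x)] (pderiv 0 (gz G P)) = 0 := by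
        rw [hpd, map_sum, Fin.sum_univ_four]
        simp only [map_mul, hWev]
        have e0 : pderiv 0 (W 0) = 0 := by simp [hW]
        have e1 : pderiv 0 (W 1) = 1 := by simp [hW]
        have e2 : pderiv 0 (W 2) = 0 := by
          simp [hW, pderiv_X_of_ne (show (1 : Fin 2) ≠ 0 by decide)]
        have e3 : pderiv 0 (W 3) = - C P.p := by
          simp [hW, pderiv_X_of_ne (show (1 : Fin 2) ≠ 0 by decide)]
        rw [e0, e1, e2, e3]
        simp only [map_zero, map_one, map_neg, aeval_C]
        have := congrArg ι hyp.gp.hp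
        rw [map_mul] at this
        rw [← hι]
        linear_combination -this
      have k1 : aeval ![ι P.x, ι P.y + b * (ι P.x - ι P.x)] (pderiv 1 (gz G P)) = 0 := by
        rw [hpd, map_sum, Fin.sum_univ_four]
        simp only [map_mul, hWev]
        have e0 : pderiv 1 (W 0) = 0 := by simp [hW]
        have e1 : pderiv 1 (W 1) = 0 := by
          simp [hW, pderiv_X_of_ne (show (0 : Fin 2) ≠ 1 by decide)]
        have e2 : pderiv 1 (W 2) = 1 := by simp [hW]
        have e3 : pderiv 1 (W 3) = - C P.q := by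
          simp [hW, pderiv_X_of_ne (show (0 : Fin 2) ≠ 1 by decide)]
        rw [e0, e1, e2, e3]
        simp only [map_zero, map_one, map_neg, aeval_C]
        have := congrArg ι hyp.gp.hq
        rw [map_mul] at this
        rw [← hι]
        linear_combination -this
      rw [k0, k1, mul_zero, add_zero]
    have g3 : 1 < h.rootMultiplicity (ι P.x) :=
      (Polynomial.one_lt_rootMultiplicity_iff_isRoot hh0).2 ⟨g1, g2⟩
    have g4 : h.rootMultiplicity (ι P.x) ≤ 2 := by
      rw [Polynomial.rootMultiplicity_le_iff hh0]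
      rw [hh]
      exact hSP2 k F Ω G d P hyp b hb
    omega
  · intro t ht htx
    set u : Ω := ι P.y + b * (t - ι P.x) with hu
    have hgz0 : aeval ![t, u] (gz G P) = 0 := by
      rw [← hev, ← hres]; exact ht
    have hnalg : ¬ (IsAlgebraic F t ∧ IsAlgebraic F u) := by
      rintro ⟨h1, h2⟩
      obtain ⟨t₀, ht₀⟩ := Pool.Agent.W602.GT.const_of_algebraic h1
      obtain ⟨u₀, hu₀⟩ := Pool.Agent.W602.GT.const_of_algebraic h2
      have h5 : t₀ - P.x ≠ 0 := by
        intro h6
        apply htx
        rw [ht₀, sub_eq_zero.1 h6]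
      apply hb
      have h6 : b = algebraMap F Ω ((u₀ - P.y) / (t₀ - P.x)) := by
        rw [map_div₀, map_sub, map_sub, ← ht₀, ← hu₀, eq_div_iff, hu]
        · ring
        · rw [ht₀, ← map_sub]
          rwa [Ne, map_eq_zero]
      rw [h6]
      exact isAlgebraic_algebraMap _
    have hker : ∀ f : MvPolynomial (Fin 2) F, aeval ![t, u] f = 0 → gz G P ∣ f :=
      fun f hf => dvd_of_zero _ _ hgi t u hgz0 hf hnalg
    refine ⟨?_, fun f hf => hker f hf⟩
    -- simple root
    have h1 : 0 < h.rootMultiplicity t := (Polynomial.rootMultiplicity_pos hh0).2 ht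
    have h2 : ¬ 1 < h.rootMultiplicity t := by
      intro h3
      rw [Polynomial.one_lt_rootMultiplicity_iff_isRoot hh0] at h3
      have h4 : (Polynomial.derivative h).eval t = 0 := h3.2
      rw [hder] at h4
      -- the derivation
      obtain ⟨s, hs1, hs2⟩ := exists_isTranscendenceBasis_superset (R := F) (A := Ω) (s := {b})
        (by
          rw [AlgebraicIndepOn]
          refine (algebraicIndependent_unique_type_iff).2 ?_
          exact hb)
      classical
      obtain ⟨D, hD⟩ := Pool.Agent.W602.GT.exists_der (fun x : s => (x : Ω)) hs2 (fun _ => 1)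
      have hDb : D b = 1 := hD ⟨b, hs1 rfl⟩
      have hDu : D u = (t - ι P.x) + b * D t := by
        rw [hu, map_add, D.leibniz, map_sub, hι, D.map_algebraMap, D.map_algebraMap, hDb]
        simp only [smul_eq_mul]
        ring
      have h5 := congrArg D hgz0
      rw [Pool.Agent.H168.KC.SP2.der_aeval D, Fin.sum_univ_two, map_zero] at h5
      simp only [Matrix.cons_val_zero, Matrix.cons_val_one] at h5
      rw [hDu] at h5
      have h6 : aeval ![t, u] (pderiv 1 (gz G P)) * (t - ι P.x) = 0 := by
        linear_combination h5 - D t * h4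
      have h7 : aeval ![t, u] (pderiv 1 (gz G P)) = 0 :=
        (mul_eq_zero.1 h6).resolve_right (sub_ne_zero.2 htx)
      have h8 : aeval ![t, u] (pderiv 0 (gz G P)) = 0 := by
        rw [h7, mul_zero, add_zero] at h4
        exact h4
      obtain ⟨i, hi⟩ := exists_pderiv_not_dvd (gz G P) (by rw [hgd]; have := hyp.two; omega)
      fin_cases i
      · exact hi (hker _ h8)
      · exact hi (hker _ h7)
    omega

end Pool.Agent.H284.KC
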